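import Pool.Agent.H85.FA.Q1bFinal
import Pool.Agent.H85.FA.Q2Final
import Pool.Agent.H85.FA.Free
import Pool.Agent.H77.Alt.Has

/-!
# MP_273d7a_al, Q1 : trivial characteristic ideals of the free alternative algebra

Over every field of characteristic different from 2 and 3 the free alternative algebra on
countably many generators has a trivial characteristic ideal which is not contained in the
associative center.  The ideal is `D^2 ∩ Ann(D^2)`, where `D` is the associator ideal.
-/

universe u

namespace Pool.Agent.Results.MP_273d7a_al.TrivialCharIdeal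

open H85.FA

theorem result (F : Type u) [Field F] (h2 : (2 : F) ≠ 0) (h3 : (3 : F) ≠ 0) :
    ∃ I : Submodule F (FreeAlt F), IsIdeal I ∧ (∀ x ∈ I, ∀ y ∈ I, x * y = 0) ∧
      (∀ δ : FreeAlt F →ₗ[F] FreeAlt F, (∀ x y, δ (x * y) = δ x * y + x * δ y) →
        ∀ x ∈ I, δ x ∈ I) ∧
      ¬ ∀ x ∈ I, InNuc x :=
  assembly F h2 h3 P10 (q1b F h2 h3) (q2 F h2 h3) (H77.Alt.hasModel F h2 h3)

end Pool.Agent.Results.MP_273d7a_al.TrivialCharIdeal
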